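import Pool.Agent.Helper144.BL.Digits

set_option autoImplicit false

/-!
# Banach limits which cannot be split in halves give nonmeasurable sets of reals

The definitions are in `Pool/Agent/Helper144/BL/Split.lean` and `Digits.lean`: `BanachLimit L` says
that `L` is a Banach limit, `Splits L` that `L` is the midpoint of two Banach limits `L₁`, `L₂` with
`L₁ 1_E = 1` and `L₂ 1_E = 0` for some set `E` of natural numbers; `dig r` is the set of the places
of the digits one in the binary expansion of the real number `r`, and `bb S` is the indicator
function of the union of the dyadic blocks `{n | 2 ^ k ≤ n + 1 < 2 ^ (k + 1)}`, `k ∈ S`.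
-/

namespace Pool.Agent.Results.MP_701998_lc.UnsplitBanachLimits

open MeasureTheory Pool.Agent.Helper144.BL

/-- If a Banach limit is not the midpoint of two Banach limits which are separated by a set, in
particular if it is an extreme point of the set of all Banach limits, then an explicit set of real
numbers, defined from the Banach limit, is not Lebesgue measurable. -/
theorem result (L : (ℕ → ℝ) → ℝ) (hL : BanachLimit L) (h : ¬ Splits L) :
    ¬ NullMeasurableSet {r : ℝ | L (bb (dig r)) < 1 / 2} volume :=
  main hL h

end Pool.Agent.Results.MP_701998_lc.UnsplitBanachLimits
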